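import Pool.Agent.Q59.RL.Fix
import Pool.Agent.Q6.RS.Cheb0
import Pool.Agent.Q210.RS.ParA
import Pool.Agent.W401.Cheb.Main

/-!
# Residue symbols of split primes
-/

set_option autoImplicit false

namespace Pool.Agent.Q175.RS

open NumberField Finset Pool.Agent.Q59.RL

/-- Primes which split completely. -/
lemma exists_split (Ω : Type) [Field Ω] [NumberField Ω] [IsGalois ℚ Ω] (B : ℕ) :
    ∃ (ℓ : ℕ) (_ : Fact ℓ.Prime), B < ℓ ∧ Nonempty (𝓞 Ω →+* ZMod ℓ) := by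
  classical
  obtain ⟨ℓ, ⟨hℓ, hxp⟩, hB⟩ := (Pool.Agent.W401.Cheb.infinite_frob Ω 1).exists_gt B
  have : Fact ℓ.Prime := ⟨hℓ⟩
  have hne : Nonempty {φ : 𝓞 Ω →+* AlgebraicClosure (ZMod ℓ) //
      Pool.Agent.W401.Cheb.HasFrob ℓ φ 1} := by
    by_contra hem
    rw [not_nonempty_iff] at hem
    apply hxp
    unfold Pool.Agent.W401.Cheb.xp
    rw [dif_pos hℓ]
    exact Nat.card_of_isEmpty
  obtain ⟨Φ, hΦ⟩ := hne
  set ι : ZMod ℓ →+* AlgebraicClosure (ZMod ℓ) := algebraMap (ZMod ℓ) (AlgebraicClosure (ZMod ℓ))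
    with hι
  have h1 : ∀ x, Φ x ∈ ι.range := by
    intro x
    obtain ⟨a, ha⟩ := Pool.Agent.Q210.RS.mem_range_of_frob ι (Φ x) (by
      rw [ZMod.card, ← hΦ x, one_smul])
    exact ⟨a, ha⟩
  have hbij : Function.Bijective ι.rangeRestrict :=
    ⟨fun a b hab => ι.injective (congrArg Subtype.val hab), ι.rangeRestrict_surjective⟩
  set e : ZMod ℓ ≃+* ι.range := RingEquiv.ofBijective ι.rangeRestrict hbij with he
  exact ⟨ℓ, ⟨hℓ⟩, hB, ⟨e.symm.toRingHom.comp (Φ.codRestrict ι.range h1)⟩⟩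

/-- A Galois number field containing `K`. -/
lemma exists_gal (K : Type) [Field K] [NumberField K] : ∃ (Ω : Type) (_ : Field Ω)
    (_ : NumberField Ω) (_ : K →+* Ω), IsGalois ℚ Ω := by
  obtain ⟨L, h1, h2, i, -, h3, -⟩ := Pool.Agent.Q6.RS.exists_galois (Ω := K) 0
  exact ⟨L, h1, h2, i, h3⟩

/-- The Galois group is transitive on primitive roots of unity. -/
lemma exists_aut {Ω : Type} [Field Ω] [NumberField Ω] [IsGalois ℚ Ω] {m : ℕ} (hm : 0 < m) {ζ : Ω}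
    (hζ : IsPrimitiveRoot ζ m) {u : ℕ} (hu : u.Coprime m) : ∃ g : Gal(Ω/ℚ), g ζ = ζ ^ u := by
  have h1 : IsPrimitiveRoot (ζ ^ u) m := hζ.pow_of_coprime u hu
  have h2 : IsConjRoot ℚ (ζ ^ u) ζ := by
    unfold IsConjRoot
    rw [← Polynomial.cyclotomic_eq_minpoly_rat h1 hm, ← Polynomial.cyclotomic_eq_minpoly_rat hζ hm]
  exact isConjRoot_iff_exists_algEquiv.1 h2

/-- A criterion for residue symbols. -/
lemma symbol_of {K : Type} [Field K] [NumberField K] {σ : K →+* ℂ} {m ℓ : ℕ} [Fact ℓ.Prime]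
    {ζ : 𝓞 K} (hζ : ζ ^ m = 1) (φ : 𝓞 K →+* ZMod ℓ) (χ : MulChar (ZMod ℓ) ℂ) (hχ : orderOf χ = m)
    (y : (ZMod ℓ)ˣ) (hy : ∀ x : (ZMod ℓ)ˣ, x ∈ Subgroup.zpowers y) (c : ℕ)
    (h1 : χ (y : ZMod ℓ) = σ (ζ : K) ^ c) (h2 : φ ζ ^ c = (y : ZMod ℓ) ^ ((ℓ - 1) / m)) :
    IsSymbol m σ φ χ := by
  refine ⟨hχ, fun x hx => ?_⟩
  obtain ⟨n, hn⟩ : ∃ n : ℕ, y ^ n = Units.mk0 (φ x) hx :=
    (IsOfFinOrder.mem_powers_iff_mem_zpowers (isOfFinOrder_of_finite y)).mpr (hy _)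
  have hx' : φ x = (y : ZMod ℓ) ^ n := by
    rw [← Units.val_pow_eq_pow_val, hn, Units.val_mk0]
  refine ⟨ζ ^ (c * n), ?_, ?_, ?_⟩
  · rw [← pow_mul, mul_comm, pow_mul, hζ, one_pow]
  · rw [ZMod.card, map_pow, pow_mul, h2, hx', ← pow_mul, ← pow_mul, mul_comm]
  · rw [hx', map_pow, h1, ← pow_mul]
    push_cast
    rw [map_pow]

/-- Every character of order `m` of a residue field of a split prime is a residue symbol. -/
lemma exists_symbol {K : Type} [Field K] [NumberField K] (σ : K →+* ℂ) {m : ℕ} (hm : 2 ≤ m)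
    {ζ : 𝓞 K} (hζ : IsPrimitiveRoot ζ m) {Ω : Type} [Field Ω] [NumberField Ω] [IsGalois ℚ Ω]
    (j : K →+* Ω) {ℓ : ℕ} [Fact ℓ.Prime] (Φ : 𝓞 Ω →+* ZMod ℓ) (hℓm : m < ℓ)
    (χ : MulChar (ZMod ℓ) ℂ) (hχ : orderOf χ = m) :
    m ∣ ℓ - 1 ∧ ∃ φ : 𝓞 K →+* ZMod ℓ, Function.Surjective φ ∧ IsSymbol m σ φ χ := by
  classical
  have hℓ : ℓ.Prime := Fact.out
  have hm0 : 0 < m := by omega
  have : NeZero m := ⟨hm0.ne'⟩
  have hmF : (m : ZMod ℓ) ≠ 0 := by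
    rw [Ne, ZMod.natCast_eq_zero_iff]
    intro h
    have := Nat.le_of_dvd hm0 h
    omega
  have : NeZero (m : ZMod ℓ) := ⟨hmF⟩
  have hζK : IsPrimitiveRoot (ζ : K) m :=
    hζ.map_of_injective (f := algebraMap (𝓞 K) K) (FaithfulSMul.algebraMap_injective (𝓞 K) K)
  have hζΩ : IsPrimitiveRoot (j (ζ : K)) m := hζK.map_of_injective j.injective
  have hζC : IsPrimitiveRoot (σ (ζ : K)) m := hζK.map_of_injective σ.injective
  set jO := RingOfIntegers.mapRingHom j with hjO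
  have hξ : IsPrimitiveRoot (Φ (jO ζ)) m := by
    have h0 : IsPrimitiveRoot (jO ζ) m :=
      IsPrimitiveRoot.of_map_of_injective (f := algebraMap (𝓞 Ω) Ω) hζΩ
        (FaithfulSMul.algebraMap_injective (𝓞 Ω) Ω)
    rw [← Polynomial.isRoot_cyclotomic_iff]
    have h1 : (Polynomial.cyclotomic m (𝓞 Ω)).IsRoot (jO ζ) := h0.isRoot_cyclotomic hm0
    have h2 := h1.map (f := Φ)
    rwa [Polynomial.map_cyclotomic] at h2
  have hdvd : m ∣ ℓ - 1 := by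
    apply hξ.dvd_of_pow_eq_one
    exact ZMod.pow_card_sub_one_eq_one (hξ.ne_zero hm0.ne')
  refine ⟨hdvd, ?_⟩
  obtain ⟨e, he⟩ := hdvd
  obtain ⟨y, hy⟩ := IsCyclic.exists_generator (α := (ZMod ℓ)ˣ)
  have hyord : orderOf y = ℓ - 1 := by
    rw [orderOf_eq_card_of_forall_mem_zpowers hy, Nat.card_eq_fintype_card, ZMod.card_units]
  have hgen : ∀ x : (ZMod ℓ)ˣ, ∃ n : ℕ, y ^ n = x := fun x =>
    (IsOfFinOrder.mem_powers_iff_mem_zpowers (isOfFinOrder_of_finite y)).mpr (hy x)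
  have hχy1 : χ (y : ZMod ℓ) ^ m = 1 := by
    rw [← hχ, ← MulChar.pow_apply_coe, pow_orderOf_eq_one, MulChar.one_apply_coe]
  have hχprim : IsPrimitiveRoot (χ (y : ZMod ℓ)) m := by
    refine ⟨hχy1, fun l hl => ?_⟩
    rw [← hχ]
    apply orderOf_dvd_of_pow_eq_one
    ext x
    obtain ⟨n, rfl⟩ := hgen x
    rw [MulChar.pow_apply_coe, Units.val_pow_eq_pow_val, map_pow, ← pow_mul, mul_comm n l, pow_mul,
      hl, one_pow, ← Units.val_pow_eq_pow_val, MulChar.one_apply_coe]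
  obtain ⟨c, -, hc⟩ := hζC.eq_pow_of_pow_eq_one hχy1
  have hcc : c.Coprime m := by
    rw [← hc] at hχprim
    exact (hζC.pow_iff_coprime hm0 c).1 hχprim
  have hξc : IsPrimitiveRoot (Φ (jO ζ) ^ c) m := hξ.pow_of_coprime c hcc
  have hω : IsPrimitiveRoot ((y : ZMod ℓ) ^ e) m := by
    have h1 : IsPrimitiveRoot (y : ZMod ℓ) (ℓ - 1) := by
      rw [← hyord]
      have := IsPrimitiveRoot.orderOf y
      exact this.map_of_injective (f := Units.coeHom (ZMod ℓ)) Units.val_injective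
    exact h1.pow (by omega) (by rw [he, mul_comm])
  obtain ⟨u, -, hu⟩ := hξc.eq_pow_of_pow_eq_one hω.pow_eq_one
  have huc : u.Coprime m := by
    rw [← hu] at hω
    exact (hξc.pow_iff_coprime hm0 u).1 hω
  obtain ⟨g, hg⟩ := exists_aut hm0 hζΩ huc
  have hgO : g • (jO ζ) = (jO ζ) ^ u := by
    apply RingOfIntegers.ext
    have h1 : ((g • (jO ζ) : 𝓞 Ω) : Ω) = g (j (ζ : K)) := rfl
    rw [h1, hg]
    push_cast
    rfl
  set φ : 𝓞 K →+* ZMod ℓ := (Φ.comp (MulSemiringAction.toRingHom Gal(Ω/ℚ) (𝓞 Ω) g)).comp jO with hφ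
  have hφζ : φ ζ = Φ (jO ζ) ^ u := by
    change Φ (g • (jO ζ)) = _
    rw [hgO, map_pow]
  refine ⟨φ, ?_, ?_⟩
  · intro x
    refine ⟨((x.val : ℕ) : 𝓞 K), ?_⟩
    rw [map_natCast, ZMod.natCast_zmod_val]
  · refine symbol_of hζ.pow_eq_one φ χ hχ y hy c hc.symm ?_
    rw [hφζ, ← pow_mul, mul_comm u c, pow_mul, hu, he, Nat.mul_div_cancel_left _ hm0]

end Pool.Agent.Q175.RS
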