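import Pool.Agent.H180.RS.Stmts3
import Pool.Agent.H916K.Stick
import Pool.Agent.Q175.RS.Split

/-!
# Fixed lines are of Hodge type
-/

set_option linter.unusedSectionVars false
set_option autoImplicit false

namespace Pool.Agent.Q175.RS

open NumberField Finset Pool.Agent.Q59.RL Pool.Agent.H916K

lemma bound_all {K : Type} [Field K] [NumberField K] {m : ℕ} (s : Multiset (ZMod m × 𝓞 K))
    (hs : ∀ z ∈ s, z.2 ≠ 0) : ∃ N : ℕ, ∀ (F : Type) [Field F] [Fintype F]
    (φ : 𝓞 K →+* F), Function.Surjective φ → N < Fintype.card F → ∀ z ∈ s, φ z.2 ≠ 0 := by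
  induction s using Multiset.induction_on with
  | empty => exact ⟨0, fun F _ _ φ _ _ z hz => absurd hz (Multiset.notMem_zero z)⟩
  | cons a s ih =>
    obtain ⟨N, hN⟩ := ih (fun z hz => hs z (Multiset.mem_cons_of_mem hz))
    obtain ⟨N', hN'⟩ := exists_bound (hs a (Multiset.mem_cons_self a s))
    refine ⟨max N N', fun F _ _ φ hφ hF z hz => ?_⟩
    rcases Multiset.mem_cons.1 hz with rfl | hz
    · exact hN' F φ hφ (lt_of_le_of_lt (le_max_right _ _) hF)
    · exact hN F φ hφ (lt_of_le_of_lt (le_max_left _ _) hF) z hz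

/-- Stickelberger's theorem for fixed lines. -/
theorem key {K : Type} [Field K] [NumberField K] (σ : K →+* ℂ) {m : ℕ} (hm : 2 ≤ m) {ζ₀ : 𝓞 K}
    (hζ₀ : IsPrimitiveRoot ζ₀ m) {s : Multiset (ZMod m × 𝓞 K)} (h0 : ∀ z ∈ s, z.1 ≠ 0)
    (hc : ∀ z ∈ s, z.2 ≠ 0) (hR : Fixed m σ s) (t : (ZMod m)ˣ) :
    (s.map fun z => ((t : ZMod m) * z.1).val).sum = m * (Multiset.card s / 2) := by
  classical
  have hmz : NeZero m := ⟨by omega⟩
  obtain ⟨N, hN⟩ := hR
  obtain ⟨N', hN'⟩ := bound_all s hc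
  obtain ⟨Ω, _, _, j, hgal⟩ := exists_gal K
  obtain ⟨ℓ, hF, hℓN, ⟨Φ⟩⟩ := exists_split Ω (N + N' + m + 3)
  have hℓ : ℓ.Prime := hF.out
  have hℓ3 : 3 ≤ ℓ := by omega
  obtain ⟨k, _, _, φ, Γ, _, v, hv1, hv2, hv3⟩ := exists_val hℓ
  have hv : Above φ v := ⟨hv1, hv2, hv3⟩
  obtain ⟨χ1, hχ1, hχφ⟩ := exists_teich (ℓ := ℓ) φ
  obtain ⟨ζ, hζ⟩ : ∃ ζ : AI, IsPrimitiveRoot ζ ℓ := by
    have h1 := Complex.isPrimitiveRoot_exp ℓ hℓ.ne_zero
    have h2 : IsIntegral ℤ (Complex.exp (2 * Real.pi * Complex.I / ((ℓ : ℕ) : ℂ))) :=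
      h1.isIntegral hℓ.pos
    exact ⟨⟨_, h2⟩, IsPrimitiveRoot.of_map_of_injective (f := algebraMap AI ℂ) h1
      Subtype.val_injective⟩
  have hinj : Function.Injective (algebraMap AI ℂ) := Subtype.val_injective
  have hmdvd : m ∣ ℓ - 1 := by
    have hmF : (m : ZMod ℓ) ≠ 0 := by
      rw [Ne, ZMod.natCast_eq_zero_iff]
      intro h
      have := Nat.le_of_dvd (by omega) h
      omega
    have : NeZero (m : ZMod ℓ) := ⟨hmF⟩
    have hζK : IsPrimitiveRoot (ζ₀ : K) m :=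
      hζ₀.map_of_injective (f := algebraMap (𝓞 K) K) (FaithfulSMul.algebraMap_injective (𝓞 K) K)
    have hζΩ : IsPrimitiveRoot (j (ζ₀ : K)) m := hζK.map_of_injective j.injective
    have h0 : IsPrimitiveRoot (RingOfIntegers.mapRingHom j ζ₀) m :=
      IsPrimitiveRoot.of_map_of_injective (f := algebraMap (𝓞 Ω) Ω) hζΩ
        (FaithfulSMul.algebraMap_injective (𝓞 Ω) Ω)
    have hξ : IsPrimitiveRoot (Φ (RingOfIntegers.mapRingHom j ζ₀)) m := by
      rw [← Polynomial.isRoot_cyclotomic_iff]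
      have h1 : (Polynomial.cyclotomic m (𝓞 Ω)).IsRoot (RingOfIntegers.mapRingHom j ζ₀) :=
        h0.isRoot_cyclotomic (by omega)
      have h2 := h1.map (f := Φ)
      rwa [Polynomial.map_cyclotomic] at h2
    apply hξ.dvd_of_pow_eq_one
    exact ZMod.pow_card_sub_one_eq_one (hξ.ne_zero (by omega))
  obtain ⟨e, he⟩ := hmdvd
  have he0 : 0 < e := Nat.pos_of_ne_zero (by rintro rfl; rw [mul_zero] at he; omega)
  set τ : ℕ := (t : ZMod m).val with hτ
  have hτcop : τ.Coprime m := ZMod.val_coe_unit_coprime t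
  set χ : MulChar (ZMod ℓ) AI := (χ1 ^ e) ^ τ with hχ
  have hord1 : orderOf (χ1 ^ e) = m := by
    rw [orderOf_pow_of_dvd he0.ne' (by rw [hχ1, he]; exact dvd_mul_left e m), hχ1, he,
      Nat.mul_div_cancel _ he0]
  have hordχ : orderOf χ = m := by
    rw [hχ, Nat.Coprime.orderOf_pow (by rw [hord1]; exact hτcop.symm), hord1]
  set ψ := AddChar.zmodChar ℓ hζ.pow_eq_one with hψdef
  set χ' : MulChar (ZMod ℓ) ℂ := χ.ringHomComp (algebraMap AI ℂ) with hχ'
  set ψ' : AddChar (ZMod ℓ) ℂ := (algebraMap AI ℂ).toMonoidHom.compAddChar ψ with hψ'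
  have hordχ' : orderOf χ' = m := by
    rw [← hordχ]
    exact orderOf_injective (MulChar.ringHomCompHom (algebraMap AI ℂ))
      (MulChar.injective_ringHomComp hinj) χ
  have hψ1 : ψ' ≠ 1 := by
    intro h
    have h1 : ψ' 1 = 1 := by rw [h]; rfl
    have h2 : algebraMap AI ℂ (ψ 1) = 1 := h1
    rw [hψdef, AddChar.zmodChar_apply] at h2
    have : Fact (1 < ℓ) := ⟨hℓ.one_lt⟩
    rw [ZMod.val_one, pow_one] at h2
    exact hζ.ne_one hℓ.one_lt (hinj (by rw [h2, map_one]))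
  obtain ⟨-, Ψ, hΨs, hΨ⟩ := exists_symbol σ hm hζ₀ j Φ (by omega) χ' hordχ'
  have h1 := hN (ZMod ℓ) Ψ hΨs (by rw [ZMod.card]; omega) χ' ψ' hΨ hψ1
  have hcz := hN' (ZMod ℓ) Ψ hΨs (by rw [ZMod.card]; omega)
  have h2 := congrArg v h1
  rw [map_mul, map_pow, map_multiset_prod, map_multiset_prod, Multiset.map_map,
    Multiset.map_map] at h2
  set π := v (((ζ - 1 : AI)) : ℂ) with hπ
  have hg : ∀ z ∈ s, v (gaussSum (χ' ^ z.1.val) ψ') = π ^ (e * ((t : ZMod m) * z.1).val) := by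
    intro z hz
    have e1 : gaussSum (χ' ^ z.1.val) ψ' = ((gaussSum (χ ^ z.1.val) ψ : AI) : ℂ) := by
      have : gaussSum (χ' ^ z.1.val) ψ' = algebraMap AI ℂ (gaussSum (χ ^ z.1.val) ψ) := by
        unfold gaussSum
        rw [map_sum]
        refine sum_congr rfl fun x _ => ?_
        rw [map_mul, hχ', MulChar.ringHomComp_pow, MulChar.ringHomComp_apply]
        rfl
      rw [this]; rfl
    have e2 : χ ^ z.1.val = χ1 ^ (e * ((t : ZMod m) * z.1).val) := by
      rw [hχ, ← pow_mul, ← pow_mul, pow_eq_pow_iff_modEq, hχ1, he, ZMod.val_mul, mul_comm m e]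
      exact (Nat.ModEq.mul_left' e (Nat.mod_modEq _ _)).symm
    have e3 : (t : ZMod m) * z.1 ≠ 0 := by
      intro h
      exact h0 z hz ((t.isUnit.mul_right_eq_zero).mp h)
    have e4 : 0 < ((t : ZMod m) * z.1).val := Nat.pos_of_ne_zero
      (fun h => e3 ((ZMod.val_eq_zero _).mp h))
    have e5 := ZMod.val_lt ((t : ZMod m) * z.1)
    have e6 : e * ((t : ZMod m) * z.1).val ≤ e * (m - 1) := Nat.mul_le_mul_left e (by omega)
    have e7 : e * (m - 1) = ℓ - 1 - e := by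
      rw [he, Nat.mul_sub, mul_one, mul_comm]
    rw [e1, e2]
    exact v_gauss hv hζ hχ1 hχφ hℓ3 _ (Nat.mul_pos he0 e4) (by omega)
  have hcf : ∀ z ∈ s, v ((χ' ^ z.1.val) (Ψ z.2)) = 1 := by
    intro z hz
    have e1 : (χ' ^ z.1.val) (Ψ z.2) = (((χ ^ z.1.val) (Ψ z.2) : AI) : ℂ) := by
      rw [hχ', MulChar.ringHomComp_pow, MulChar.ringHomComp_apply]; rfl
    rw [e1]
    apply hv.root (n := orderOf (χ ^ z.1.val)) (orderOf_pos _).ne'
    exact mulChar_pow_one rfl (hcz z hz)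
  have e1 : (s.map (v ∘ fun z => gaussSum (χ' ^ z.1.val) ψ')) =
      s.map fun z => π ^ (e * ((t : ZMod m) * z.1).val) := Multiset.map_congr rfl hg
  have e2 : (s.map (v ∘ fun z => (χ' ^ z.1.val) (Ψ z.2))) = s.map fun _ => (1 : Γ) :=
    Multiset.map_congr rfl hcf
  rw [e1, e2, Multiset.map_const', Multiset.prod_replicate, one_pow, mul_one, ZMod.card] at h2
  have hprodpow : ∀ s : Multiset (ZMod m × 𝓞 K),
      (s.map fun z => π ^ (e * ((t : ZMod m) * z.1).val)).prod =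
        π ^ (e * (s.map fun z => ((t : ZMod m) * z.1).val).sum) := by
    intro s
    induction s using Multiset.induction_on with
    | empty => simp
    | cons a s ih =>
      rw [Multiset.map_cons, Multiset.prod_cons, ih, Multiset.map_cons, Multiset.sum_cons,
        ← pow_add, mul_add]
  rw [hprodpow] at h2
  -- the valuation of `ℓ`
  have hπ0 : π ≠ 0 := by
    rw [hπ, Valuation.ne_zero_iff]
    intro h0
    have h7 : (ζ : ℂ) = 1 := by
      have : ((ζ - 1 : AI) : ℂ) = (ζ : ℂ) - 1 := by push_cast; ring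
      rw [this] at h0
      exact sub_eq_zero.mp h0
    exact hζ.ne_one hℓ.one_lt (Subtype.ext h7)
  have hπ1 : π < 1 := v_pi hv hζ
  have hvℓ : v ((ℓ : ℂ)) = π ^ (ℓ - 1) := by
    refine le_antisymm (v_ell hv hζ) ?_
    have hprim : (AddChar.zmodChar ℓ hζ.pow_eq_one).IsPrimitive :=
      AddChar.zmodChar_primitive_of_primitive_root ℓ hζ
    have hne : χ1 ≠ 1 := by
      intro h; rw [h, orderOf_one] at hχ1; omega
    have h3 := gaussSum_mul_gaussSum_pow_orderOf_sub_one hne hprim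
    rw [hχ1] at h3
    have h4 := congrArg (fun z : AI => v (z : ℂ)) h3
    push_cast at h4
    rw [map_mul, map_mul] at h4
    have hneg : v ((χ1 (-1) : AI) : ℂ) = 1 := by
      apply hv.root (n := 2) (by norm_num)
      rw [← map_pow]
      have : ((-1 : ZMod ℓ)) ^ 2 = 1 := by ring
      rw [this, MulChar.map_one]
    rw [hneg, one_mul, ZMod.card, v_gauss_one hv hζ hχ1 hχφ hℓ3, show ℓ - 1 - 1 = ℓ - 2 by omega,
      v_gauss hv hζ hχ1 hχφ hℓ3 (ℓ - 2) (by omega) le_rfl, ← pow_succ',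
      show ℓ - 2 + 1 = ℓ - 1 by omega] at h4
    exact h4.le
  rw [hvℓ, ← pow_mul] at h2
  have h3 := pow_right_injective₀ (zero_lt_iff.mpr hπ0) hπ1.ne h2
  rw [he] at h3
  have : e * (s.map fun z => ((t : ZMod m) * z.1).val).sum = e * (m * (Multiset.card s / 2)) := by
    rw [h3]; ring
  exact Nat.eq_of_mul_eq_mul_left he0 this

lemma val_add_val_neg {m : ℕ} [NeZero m] {a : ZMod m} (ha : a ≠ 0) : a.val + (-a).val = m := by
  have : NeZero a := ⟨ha⟩
  rw [ZMod.val_neg_of_ne_zero]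
  have := ZMod.val_lt a
  omega

theorem hodge : Pool.Agent.H180.RS.PropHodge := by
  intro K _ _ σ m hm ζ hζ s hs hsum hR
  classical
  have hmz : NeZero m := ⟨by omega⟩
  have h0 : ∀ z ∈ s, z.1 ≠ 0 := fun z hz => (hs z hz).1
  have hc : ∀ z ∈ s, z.2 ≠ 0 := fun z hz => (hs z hz).2
  have hk := key σ hm hζ h0 hc hR
  have heven : Even (Multiset.card s) := by
    have h1 := hk 1
    have h2 := hk (-1)
    have h3 : ∀ s : Multiset (ZMod m × 𝓞 K), (∀ z ∈ s, z.1 ≠ 0) →
        (s.map fun z => (((1 : (ZMod m)ˣ) : ZMod m) * z.1).val).sum +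
        (s.map fun z => (((-1 : (ZMod m)ˣ) : ZMod m) * z.1).val).sum = m * Multiset.card s := by
      intro s
      induction s using Multiset.induction_on with
      | empty => intro _; simp
      | cons a s ih =>
        intro hs'
        have ih' := ih (fun z hz => hs' z (Multiset.mem_cons_of_mem hz))
        rw [Multiset.map_cons, Multiset.sum_cons, Multiset.map_cons, Multiset.sum_cons,
          Multiset.card_cons]
        have h4 := val_add_val_neg (hs' a (Multiset.mem_cons_self a s))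
        have h5 : (((1 : (ZMod m)ˣ) : ZMod m) * a.1) = a.1 := by simp
        have h6 : (((-1 : (ZMod m)ˣ) : ZMod m) * a.1) = -a.1 := by simp
        rw [h5, h6, mul_add, mul_one]
        omega
    have h4 := h3 s h0
    rw [h1, h2, ← mul_add] at h4
    have h5 := Nat.eq_of_mul_eq_mul_left (by omega : 0 < m) h4
    exact ⟨_, h5.symm⟩
  refine ⟨?_, by rwa [Multiset.card_map], hsum, ?_⟩
  · intro h
    obtain ⟨z, hz, hz0⟩ := Multiset.mem_map.mp h
    exact h0 z hz hz0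
  intro t
  rw [Multiset.map_map, Multiset.card_map]
  have h5 : (s.map ((fun a => ((t : ZMod m) * a).val) ∘ Prod.fst)).sum =
    m * (Multiset.card s / 2) := hk t
  obtain ⟨c, hcard⟩ := heven
  rw [h5, hcard, show (c + c) / 2 = c by omega]
  ring

end Pool.Agent.Q175.RS
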